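import Mathlib
import Pool.Agent.Helper14D.Stm
import Pool.Agent.TH922.KC.Trans

/-!
# The coordinates of the generic projection have no common zeros
-/

set_option autoImplicit false

open MvPolynomial

namespace Pool.Agent.Helper37.VD

open Pool.Agent.TH922.KC Pool.Agent.Helper14D

/-- `Lf s` is algebraically closed in `Ω` -/
lemma Lf_closed {Ω : Type*} [Field Ω] [CharZero Ω] {s : Set Ω} {z : Ω}
    (h : IsAlgebraic (Lf s) z) : z ∈ Lf s := by
  let A := Algebra.adjoin ℚ s
  have hA : ∀ a : A, (a : Ω) ∈ Lf s := fun a => isAlgebraic_algebraMap a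
  letI : Algebra A (Lf s) := (({ toFun := fun a => ⟨(a : Ω), hA a⟩
                                 map_one' := rfl
                                 map_mul' := fun _ _ => rfl
                                 map_zero' := rfl
                                 map_add' := fun _ _ => rfl } : A →+* Lf s)).toAlgebra
  have : IsScalarTower A (Lf s) Ω := IsScalarTower.of_algebraMap_eq (fun _ => rfl)
  have : Algebra.IsAlgebraic A (Lf s) := ⟨fun w => by
    have h1 : IsAlgebraic A (w : Ω) := w.2
    exact (isAlgebraic_algebraMap_iff (A := Ω) (algebraMap (Lf s) Ω).injective).mp h1⟩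
  exact h.restrictScalars A

lemma Lf_idem {Ω : Type*} [Field Ω] [CharZero Ω] {s t : Set Ω} (hst : ∀ x ∈ s, x ∈ Lf t) {z : Ω}
    (hz : z ∈ Lf s) : z ∈ Lf t := by
  have h1 : z ∈ (AlgebraicIndependent.matroid ℚ Ω).closure s := by
    rw [AlgebraicIndependent.matroid_closure_eq]; exact hz
  have h2 : s ⊆ (AlgebraicIndependent.matroid ℚ Ω).closure t := by
    rw [AlgebraicIndependent.matroid_closure_eq]; exact hst
  have h3 := (AlgebraicIndependent.matroid ℚ Ω).closure_subset_closure_of_subset_closure h2 h1
  rw [AlgebraicIndependent.matroid_closure_eq] at h3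
  exact h3

/-- a dependent finite family over `Lf s` has a member algebraic over the others -/
lemma dep_row {Ω : Type*} [Field Ω] [CharZero Ω] {ι : Type*} {s : Set Ω} (x : ι → Ω)
    (h : ¬ AlgebraicIndependent (Lf s) x) :
    ∃ i, x i ∈ Lf (s ∪ x '' {i}ᶜ) := by
  classical
  by_cases hinj : Function.Injective x
  · have h1 : ¬ (AlgebraicIndependent.matroid (Lf s) Ω).Indep (Set.range x) := by
      rw [AlgebraicIndependent.matroid_indep_iff]
      intro h2
      exact h ((algebraicIndependent_subtype_range hinj).mp h2)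
    rw [Matroid.indep_iff_forall_notMem_closure_sdiff (hI := by simp)] at h1
    push Not at h1
    obtain ⟨e, ⟨i, rfl⟩, he⟩ := h1
    refine ⟨i, ?_⟩
    have h3 : Set.range x \ {x i} = x '' {i}ᶜ := by
      ext z
      constructor
      · rintro ⟨⟨j, rfl⟩, hj⟩
        exact ⟨j, fun hji => hj (by rw [Set.mem_singleton_iff] at *; rw [hji]), rfl⟩
      · rintro ⟨j, hj, rfl⟩
        exact ⟨⟨j, rfl⟩, fun hji => hj (hinj hji)⟩
    rw [AlgebraicIndependent.matroid_closure_eq, h3] at he
    have he' : IsAlgebraic (Algebra.adjoin (Lf s) (x '' {i}ᶜ)) (x i) := he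
    apply Lf_closed
    set S := s ∪ x '' {i}ᶜ with hS
    have hsub : ∀ a ∈ Algebra.adjoin (Lf s) (x '' {i}ᶜ), a ∈ Lf S := by
      intro a ha
      induction ha using Algebra.adjoin_induction with
      | mem x hx => exact Lf_of_mem (Or.inr hx)
      | algebraMap r => exact isAlg_mono Set.subset_union_left r.2
      | add x y _ _ hx hy => exact (Lf S).add_mem hx hy
      | mul x y _ _ hx hy => exact (Lf S).mul_mem hx hy
    obtain ⟨p, hp0, hp⟩ := he'
    let ψ : Algebra.adjoin (Lf s) (x '' {i}ᶜ) →+* Lf S :=
      { toFun := fun a => ⟨(a : Ω), hsub a a.2⟩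
        map_one' := rfl
        map_mul' := fun _ _ => rfl
        map_zero' := rfl
        map_add' := fun _ _ => rfl }
    have hψ : Function.Injective ψ := by
      intro a b hab
      have := congrArg Subtype.val hab
      exact Subtype.ext this
    refine ⟨p.map ψ, ?_, ?_⟩
    · rwa [Ne, Polynomial.map_eq_zero_iff hψ]
    · rw [Polynomial.aeval_def, Polynomial.eval₂_map]
      exact hp
  · have : ∃ i j, x i = x j ∧ i ≠ j := by
      simpa [Function.Injective] using hinj
    obtain ⟨i, j, hij, hne⟩ := this
    refine ⟨i, Lf_of_mem (Or.inr ⟨j, fun h => hne (by rw [Set.mem_singleton_iff] at h; exact h.symm), hij.symm⟩)⟩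

end Pool.Agent.Helper37.VD
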