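import Mathlib
import Pool.Agent.Helper14D.Stm

/-!
# Expansion of the coordinates of the projection
-/

set_option autoImplicit false

open MvPolynomial

namespace Pool.Agent.Helper37.VD

open Pool.Agent.Helper14D

variable {N : ℕ} {τ : Type} [Fintype τ]

/-- the coefficients -/
noncomputable def cf {k : Type} [Field k] {M1 : ℕ} (h : Fin (N + 1) → k) (l : τ → k)
    (β : Ix N τ M1) : k :=
  h β.1 * ∏ t, ((M1.choose (β.2 t : ℕ) : k) * (- l t) ^ (M1 - (β.2 t : ℕ)))

lemma yy_expand {k : Type} [Field k] [CharZero k] [DecidableEq τ]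
    (u v : τ → MvPolynomial (Fin (N + 1)) ℚ)
    (M1 : ℕ) (η : Fin (N + 1) → Fin (N + 1) → k) (lam : Fin (N + 1) → τ → k) (j : Fin (N + 1)) :
    yy u v M1 η lam j = ∑ β : Ix N τ M1, C (cf (η j) (lam j) β) *
      MvPolynomial.map (algebraMap ℚ k) (WW u v M1 β) := by
  unfold yy
  have h1 : ∀ t, (MvPolynomial.map (algebraMap ℚ k) (u t)
      - C (lam j t) * MvPolynomial.map (algebraMap ℚ k) (v t)) ^ M1
      = ∑ e : Fin (M1 + 1), (C ((M1.choose (e : ℕ) : k) * (- lam j t) ^ (M1 - (e : ℕ))) *
        MvPolynomial.map (algebraMap ℚ k) (u t ^ (e : ℕ) * v t ^ (M1 - (e : ℕ)))) := by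
    intro t
    rw [sub_eq_add_neg, add_pow, Finset.sum_range]
    refine Finset.sum_congr rfl fun e _ => ?_
    rw [map_mul, map_mul, map_pow, map_pow, map_pow, map_neg, neg_mul_eq_neg_mul, mul_pow,
      map_natCast]
    ring
  rw [Finset.prod_congr rfl (fun t _ => h1 t), Finset.prod_univ_sum, Fintype.piFinset_univ,
    Finset.sum_mul_sum, Fintype.sum_prod_type]
  refine Finset.sum_congr rfl fun i _ => Finset.sum_congr rfl fun e _ => ?_
  unfold WW cf
  simp only [Finset.prod_mul_distrib, map_mul, map_prod, map_X]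
  ring

/-- scaling in a homogeneous polynomial -/
lemma eval₂_scale {S ι : Type} [CommRing S] (φ : ℚ →+* S) {d : ℕ} (F : MvPolynomial ι ℚ)
    (hF : F.IsHomogeneous d) (w : ι → S) (c : S) :
    eval₂ φ (fun o => w o * c) F = c ^ d * eval₂ φ w F := by
  rw [eval₂_eq, eval₂_eq, Finset.mul_sum]
  refine Finset.sum_congr rfl fun e he => ?_
  have h1 : ∏ i ∈ e.support, c ^ (e i) = c ^ d := by
    rw [Finset.prod_pow_eq_pow_sum]
    congr 1
    have h2 : e.degree = d := by
      by_contra hx
      exact (mem_support_iff.mp he) (hF.coeff_eq_zero hx)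
    rw [← h2]
    rfl
  simp only [mul_pow]
  rw [Finset.prod_mul_distrib, h1]
  ring

/-- the exponents in the parameters -/
noncomputable def ex {M1 : ℕ} (β : Ix N τ M1) : (Fin (N + 1) ⊕ τ) →₀ ℕ := by
  classical
  exact Finsupp.equivFunOnFinite.symm
    (Sum.elim (fun i => if i = β.1 then 1 else 0) (fun t => M1 - (β.2 t : ℕ)))

lemma ex_inj {M1 : ℕ} : Function.Injective (ex : Ix N τ M1 → _) := by
  intro β β' h
  have h1 : β.1 = β'.1 := by
    have := DFunLike.congr_fun h (Sum.inl β.1)
    simp only [ex, Finsupp.equivFunOnFinite_symm_apply_apply, Sum.elim_inl] at this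
    by_contra hne
    simp [hne] at this
  have h2 : β.2 = β'.2 := by
    funext t
    have := DFunLike.congr_fun h (Sum.inr t)
    simp only [ex, Finsupp.equivFunOnFinite_symm_apply_apply, Sum.elim_inr] at this
    have h3 := (β.2 t).2
    have h4 := (β'.2 t).2
    apply Fin.ext
    omega
  exact Prod.ext h1 h2

end Pool.Agent.Helper37.VD
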