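import Mathlib
import Pool.Agent.TH922.KC.Trans

/-!
# `N + 2` forms of the same degree in `N + 1` variables
-/

set_option autoImplicit false

open MvPolynomial

namespace Pool.Agent.Helper37.VD

open Pool.Agent.TH922.KC

/-- too many polynomials are algebraically dependent -/
lemma not_algInd {ι σ : Type} [Fintype ι] [Fintype σ] (h : Fintype.card σ < Fintype.card ι)
    (a : ι → MvPolynomial σ ℚ) : ¬ AlgebraicIndependent ℚ a := by
  intro ha
  let Ω := FractionRing (MvPolynomial σ ℚ)
  have hinj : Function.Injective (algebraMap (MvPolynomial σ ℚ) Ω) :=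
    IsFractionRing.injective _ _
  have : CharZero Ω := charZero_of_injective_algebraMap hinj
  let f : MvPolynomial σ ℚ →ₐ[ℚ] Ω := IsScalarTower.toAlgHom ℚ (MvPolynomial σ ℚ) Ω
  have h1 : AlgebraicIndependent ℚ (fun i => f (a i)) := ha.map' (f := f) hinj
  have h2 := card_le_of_alg (fun i => f (a i)) h1 (fun x : σ => f (X x)) (by
    intro i
    have h3 : ∀ p : MvPolynomial σ ℚ, f p ∈ Algebra.adjoin ℚ (Set.range (fun x : σ => f (X x))) := by
      intro p
      have h4 : p ∈ Algebra.adjoin ℚ (Set.range (X : σ → MvPolynomial σ ℚ)) := by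
        rw [MvPolynomial.adjoin_range_X]; trivial
      have h5 : f p ∈ (Algebra.adjoin ℚ (Set.range (X : σ → MvPolynomial σ ℚ))).map f :=
        ⟨p, h4, rfl⟩
      rw [AlgHom.map_adjoin, ← Set.range_comp] at h5
      exact h5
    exact isAlgebraic_algebraMap (⟨f (a i), h3 (a i)⟩ : Algebra.adjoin ℚ _))
  omega

/-- homogeneous relation -/
lemma hom_rel {ι σ : Type} [Fintype ι] [Fintype σ] (h : Fintype.card σ < Fintype.card ι)
    (a : ι → MvPolynomial σ ℚ) {D : ℕ} (hD : 0 < D) (ha : ∀ i, (a i).IsHomogeneous D) :
    ∃ (d : ℕ) (F : MvPolynomial ι ℚ), F ≠ 0 ∧ F.IsHomogeneous d ∧ aeval a F = 0 := by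
  classical
  have h1 := not_algInd h a
  rw [algebraicIndependent_iff] at h1
  push Not at h1
  obtain ⟨F, hF, hF0⟩ := h1
  have h2 : ∃ d, homogeneousComponent d F ≠ 0 := by
    by_contra hcon
    push Not at hcon
    apply hF0
    rw [← sum_homogeneousComponent F]
    exact Finset.sum_eq_zero fun i _ => hcon i
  obtain ⟨d, hd⟩ := h2
  refine ⟨d, homogeneousComponent d F, hd, homogeneousComponent_isHomogeneous d F, ?_⟩
  have h3 : ∀ i, (aeval a (homogeneousComponent i F)).IsHomogeneous (D * i) := fun i =>
    (homogeneousComponent_isHomogeneous i F).aeval a ha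
  have h4 : ∑ i ∈ Finset.range (F.totalDegree + 1), aeval a (homogeneousComponent i F) = 0 := by
    rw [← map_sum, sum_homogeneousComponent, hF]
  have h5 := congrArg (homogeneousComponent (D * d)) h4
  rw [map_sum, map_zero] at h5
  have h6 : ∀ i, homogeneousComponent (D * d) (aeval a (homogeneousComponent i F))
      = if i = d then aeval a (homogeneousComponent i F) else 0 := by
    intro i
    rw [homogeneousComponent_of_mem (h3 i)]
    have : (D * d = D * i) ↔ (i = d) := by
      constructor
      · intro h
        exact (Nat.eq_of_mul_eq_mul_left hD h).symm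
      · rintro rfl; rfl
    simp only [this]
  rw [Finset.sum_congr rfl (fun i _ => h6 i), Finset.sum_ite_eq'] at h5
  split_ifs at h5 with h7
  · exact h5
  · exfalso
    apply hd
    apply homogeneousComponent_eq_zero
    rw [Finset.mem_range] at h7
    omega

/-- dehomogenisation -/
lemma dehom {ι : Type} {d : ℕ} (F : MvPolynomial (Option ι) ℚ) (hF : F.IsHomogeneous d)
    (h0 : F ≠ 0) :
    aeval (fun o : Option ι => Option.elim o (1 : MvPolynomial ι ℚ) X) F ≠ 0 := by
  classical
  obtain ⟨e, he⟩ := MvPolynomial.ne_zero_iff.mp h0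
  intro hcon
  apply he
  have h1 : aeval (fun o : Option ι => Option.elim o (1 : MvPolynomial ι ℚ) X) F
      = ∑ e' ∈ F.support, monomial e'.some (coeff e' F) := by
    rw [MvPolynomial.aeval_def, MvPolynomial.eval₂_eq]
    refine Finset.sum_congr rfl fun e' _ => ?_
    rw [MvPolynomial.monomial_eq (s := e'.some), MvPolynomial.algebraMap_eq]
    congr 1
    have h2 : ∏ i ∈ e'.support, (Option.elim i (1 : MvPolynomial ι ℚ) X) ^ (e' i)
        = e'.prod (fun o n => (Option.elim o (1 : MvPolynomial ι ℚ) X) ^ n) := rfl
    rw [h2, Finsupp.prod_option_index]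
    · simp
    · intro o; exact pow_zero _
    · intro o m n; exact pow_add _ _ _
  rw [h1] at hcon
  have h2 := congrArg (coeff e.some) hcon
  rw [coeff_sum, coeff_zero] at h2
  rw [← h2]
  symm
  rw [Finset.sum_eq_single e]
  · rw [coeff_monomial, if_pos rfl]
  · intro e' he' hne
    rw [coeff_monomial, if_neg]
    intro hs
    apply hne
    have hd1 : e'.degree = d := by
      by_contra hx
      exact (mem_support_iff.mp he') (hF.coeff_eq_zero hx)
    have hd2 : e.degree = d := by
      by_contra hx
      exact he (hF.coeff_eq_zero hx)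
    have hnone : ∀ f : Option ι →₀ ℕ, f.degree = f none + f.some.degree := by
      intro f
      have := Finsupp.sum_option_index f (fun _ n => n) (fun _ => rfl) (fun _ _ _ => rfl)
      simpa [Finsupp.degree, Finsupp.sum] using this
    ext o
    cases o with
    | none =>
      have h3 := hnone e'
      have h4 := hnone e
      rw [hd1] at h3
      rw [hd2] at h4
      rw [hs] at h3
      omega
    | some i =>
      have := DFunLike.congr_fun hs i
      simpa using this
  · intro hn
    rw [mem_support_iff, not_not] at hn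
    exact absurd hn he

end Pool.Agent.Helper37.VD
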