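import Mathlib
import Pool.Agent.Helper37.VD.Bpf
import Pool.Agent.Helper37.VD.Hrel
import Pool.Agent.Helper37.VD.Exp

/-!
# The coordinates of the generic projection have no common zeros
-/

set_option autoImplicit false

open MvPolynomial

namespace Pool.Agent.Helper37.VD

open Pool.Agent.TH922.KC Pool.Agent.Helper14D

/-- **The count.** -/
theorem count {k Ω : Type} [Field k] [CharZero k] [Field Ω] [CharZero Ω] (ι : k →+* Ω)
    {N : ℕ} {τ : Type} [Fintype τ] {M1 : ℕ}
    (η : Fin (N + 1) → Fin (N + 1) → k) (lam : Fin (N + 1) → τ → k) (hGen : Gen η lam)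
    (r : Ix N τ M1 → Ω) (βs : Ix N τ M1) (hrs : r βs = 1)
    (hR : ∀ g : Fin (N + 1) → Ix N τ M1, ¬ AlgebraicIndependent ℚ (fun i => r (g i)))
    (hrel : ∀ j, ∑ᶠ β : Ix N τ M1, ι (cf (η j) (lam j) β) * r β = 0) : False := by
  classical
  let R : Set Ω := Set.range r
  let xr : Fin (N + 1) → (Fin (N + 1) ⊕ τ) → Ω := fun j =>
    Sum.elim (fun i => ι (η j i)) (fun t => ι (lam j t))
  -- rows are dependent
  have hrow : ∀ j, ∃ p, xr j p ∈ Lf (R ∪ xr j '' {p}ᶜ) := by
    intro j
    apply dep_row
    intro hind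
    let rL : Ix N τ M1 → Lf R := fun β => ⟨r β, Lf_of_mem ⟨β, rfl⟩⟩
    let κ : Ix N τ M1 → Lf R := fun β =>
      ∏ t, ((M1.choose (β.2 t : ℕ) : Lf R) * (-1) ^ (M1 - (β.2 t : ℕ)))
    have hcL : CharZero (Lf R) := inferInstance
    have hκ : ∀ β, κ β ≠ 0 := by
      intro β
      refine Finset.prod_ne_zero_iff.mpr fun t _ => mul_ne_zero ?_ (pow_ne_zero _ (by simp))
      have h1 : M1.choose (β.2 t : ℕ) ≠ 0 := (Nat.choose_pos (by have := (β.2 t).2; omega)).ne'
      exact_mod_cast h1
    let G : MvPolynomial (Fin (N + 1) ⊕ τ) (Lf R) := ∑ β, monomial (ex β) (rL β * κ β)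
    have hG : aeval (xr j) G = 0 := by
      rw [map_sum, ← hrel j, finsum_eq_sum_of_fintype]
      refine Finset.sum_congr rfl fun β _ => ?_
      rw [aeval_monomial, Finsupp.prod_fintype _ _ (fun i => pow_zero _), Fintype.prod_sum_type]
      have h1 : ∏ i, xr j (Sum.inl i) ^ (ex β (Sum.inl i)) = ι (η j β.1) := by
        have h2 : ∀ i, xr j (Sum.inl i) ^ (ex β (Sum.inl i))
            = if i = β.1 then ι (η j i) else 1 := by
          intro i
          simp only [ex, Finsupp.equivFunOnFinite_symm_apply_apply, Sum.elim_inl, xr]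
          split_ifs <;> simp
        rw [Finset.prod_congr rfl (fun i _ => h2 i), Finset.prod_ite_eq',
          if_pos (Finset.mem_univ _)]
      have h2 : ∏ t, xr j (Sum.inr t) ^ (ex β (Sum.inr t))
          = ∏ t, (ι (lam j t)) ^ (M1 - (β.2 t : ℕ)) := by
        refine Finset.prod_congr rfl fun t _ => ?_
        simp only [ex, Finsupp.equivFunOnFinite_symm_apply_apply, Sum.elim_inr, xr]
      rw [h1, h2]
      have h3 : algebraMap (Lf R) Ω (rL β * κ β) = r β *
          ∏ t, ((M1.choose (β.2 t : ℕ) : Ω) * (-1) ^ (M1 - (β.2 t : ℕ))) := by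
        simp only [rL, κ]
        rw [map_mul, map_prod]
        congr 1
      rw [h3]
      unfold cf
      rw [map_mul, map_prod]
      have h4 : ∏ t, ι ((M1.choose (β.2 t : ℕ) : k) * (- lam j t) ^ (M1 - (β.2 t : ℕ)))
          = (∏ t, ((M1.choose (β.2 t : ℕ) : Ω) * (-1) ^ (M1 - (β.2 t : ℕ)))) *
            ∏ t, (ι (lam j t)) ^ (M1 - (β.2 t : ℕ)) := by
        rw [← Finset.prod_mul_distrib]
        refine Finset.prod_congr rfl fun t _ => ?_
        rw [map_mul, map_natCast, map_pow, map_neg, neg_pow]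
        ring
      rw [h4]
      ring
    have hG0 : G ≠ 0 := by
      intro h0
      have h1 := congrArg (coeff (ex βs)) h0
      rw [coeff_sum, coeff_zero, Finset.sum_eq_single βs] at h1
      · rw [coeff_monomial, if_pos rfl] at h1
        rcases mul_eq_zero.mp h1 with h2 | h2
        · have h3 := congrArg Subtype.val h2
          simp only [rL] at h3
          rw [hrs] at h3
          exact one_ne_zero h3
        · exact hκ _ h2
      · intro β _ hne
        rw [coeff_monomial, if_neg]
        exact fun h => hne (ex_inj h)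
      · intro h; exact absurd (Finset.mem_univ _) h
    exact hG0 ((algebraicIndependent_iff.mp hind) G hG)
  choose pj hpj using hrow
  -- a basis of `R`
  obtain ⟨B, hB⟩ := (AlgebraicIndependent.matroid ℚ Ω).exists_isBasis R (by simp)
  have hBR : B ⊆ R := hB.subset
  have hBfin : Finite B := (Set.finite_range r).subset hBR
  have hFB : Fintype B := Fintype.ofFinite B
  have hBind : AlgebraicIndependent ℚ ((↑) : B → Ω) := by
    have := hB.indep
    rwa [AlgebraicIndependent.matroid_indep_iff] at this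
  have hBcl : ∀ z ∈ R, z ∈ Lf B := by
    have := hB.subset_closure
    rwa [AlgebraicIndependent.matroid_closure_eq] at this
  have hBcard : Fintype.card B ≤ N := by
    by_contra hcon
    push Not at hcon
    obtain ⟨g⟩ : Nonempty (Fin (N + 1) ↪ B) := by
      apply Function.Embedding.nonempty_of_card_le
      rw [Fintype.card_fin]
      omega
    have h1 : ∀ i, ∃ β, r β = (g i : Ω) := fun i => hBR (g i).2
    choose b hb using h1
    apply hR b
    have h2 := hBind.comp g g.injective
    have h3 : (fun i => r (b i)) = ((↑) : B → Ω) ∘ g := funext fun i => hb i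
    rw [h3]
    exact h2
  let Y := B ⊕ (Σ j : Fin (N + 1), {p : Fin (N + 1) ⊕ τ // p ≠ pj j})
  let y : Y → Ω := Sum.elim (fun z => (z : Ω)) (fun z => xr z.1 z.2)
  have hBy : B ⊆ Set.range y := fun z hz => ⟨Sum.inl ⟨z, hz⟩, rfl⟩
  have hRy : ∀ z ∈ R, z ∈ Lf (Set.range y) := fun z hz => isAlg_mono hBy (hBcl z hz)
  have hne : ∀ j p, p ≠ pj j → xr j p ∈ Set.range y := fun j p hp => ⟨Sum.inr ⟨j, ⟨p, hp⟩⟩, rfl⟩
  have hall : ∀ j p, xr j p ∈ Lf (Set.range y) := by
    intro j p
    by_cases hp : p = pj j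
    · subst hp
      refine Lf_idem ?_ (hpj j)
      rintro z (hz | ⟨q, hq, rfl⟩)
      · exact hRy z hz
      · exact Lf_of_mem (hne j q hq)
    · exact Lf_of_mem (hne j p hp)
  have hind : AlgebraicIndependent ℚ
      (fun z : Fin (N + 1) × (Fin (N + 1) ⊕ τ) => xr z.1 z.2) := by
    have h1 : AlgebraicIndependent ℚ (fun z => ι.toRatAlgHom
        ((Sum.elim (fun z : Fin (N + 1) × Fin (N + 1) => η z.1 z.2)
          (fun z : Fin (N + 1) × τ => lam z.1 z.2)) z)) :=
      hGen.map' (f := ι.toRatAlgHom) ι.injective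
    let e : Fin (N + 1) × (Fin (N + 1) ⊕ τ) → (Fin (N + 1) × Fin (N + 1)) ⊕ (Fin (N + 1) × τ) :=
      fun z => Sum.elim (fun i => Sum.inl (z.1, i)) (fun t => Sum.inr (z.1, t)) z.2
    have he : Function.Injective e := by
      rintro ⟨j, i | t⟩ ⟨j', i' | t'⟩ h <;> simp_all [e]
    have h2 := h1.comp e he
    have h3 : (fun z : Fin (N + 1) × (Fin (N + 1) ⊕ τ) => xr z.1 z.2)
        = (fun z => ι.toRatAlgHom
        ((Sum.elim (fun z : Fin (N + 1) × Fin (N + 1) => η z.1 z.2)
          (fun z : Fin (N + 1) × τ => lam z.1 z.2)) z)) ∘ e := by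
      funext z
      obtain ⟨j, i | t⟩ := z <;> rfl
    rw [h3]
    exact h2
  have hfin := card_le_of_alg _ hind y (fun z => hall z.1 z.2)
  have hc : ∀ j, Fintype.card {p : Fin (N + 1) ⊕ τ // p ≠ pj j}
      = (N + 1 + Fintype.card τ) - 1 := by
    intro j
    rw [Fintype.card_subtype_compl, Fintype.card_sum, Fintype.card_fin]
    simp
  have hcY : Fintype.card Y = Fintype.card B + (N + 1) * (N + 1 + Fintype.card τ - 1) := by
    simp only [Y, Fintype.card_sum, Fintype.card_sigma]
    rw [Finset.sum_congr rfl (fun j _ => hc j)]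
    simp
  rw [hcY, Fintype.card_prod, Fintype.card_sum, Fintype.card_fin] at hfin
  have h9 : N + 1 + Fintype.card τ - 1 = N + Fintype.card τ := by omega
  rw [h9] at hfin
  have h10 : (N + 1) * (N + 1 + Fintype.card τ) = (N + 1) * (N + Fintype.card τ) + (N + 1) := by
    ring
  omega

theorem t_bpf : S_bpf := by
  intro N τ _ m u v M1 k _ _ η lam hu hv hu0 hv0 hGen O hO
  classical
  let P := MvPolynomial (Fin (N + 1)) k
  let E := FractionRing P
  have hinjE : Function.Injective (algebraMap P E) := IsFractionRing.injective P E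
  have hinjm : Function.Injective (MvPolynomial.map (σ := Fin (N + 1)) (algebraMap ℚ k)) :=
    MvPolynomial.map_injective _ (algebraMap ℚ k).injective
  have hW0 : ∀ β : Ix N τ M1, WW u v M1 β ≠ 0 := by
    intro β
    refine mul_ne_zero (X_ne_zero _) (Finset.prod_ne_zero_iff.mpr fun t _ =>
      mul_ne_zero (pow_ne_zero _ (hu0 t)) (pow_ne_zero _ (hv0 t)))
  have hWh : ∀ β : Ix N τ M1, (WW u v M1 β).IsHomogeneous (1 + ∑ t, m t * M1) := by
    intro β
    refine (isHomogeneous_X ℚ _).mul (IsHomogeneous.prod _ _ _ fun t _ => ?_)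
    have h1 := ((hu t).pow (β.2 t : ℕ)).mul ((hv t).pow (M1 - (β.2 t : ℕ)))
    have h2 : m t * (β.2 t : ℕ) + m t * (M1 - (β.2 t : ℕ)) = m t * M1 := by
      rw [← mul_add]
      congr 1
      have := (β.2 t).2
      omega
    rwa [h2] at h1
  let w : Ix N τ M1 → E := fun β =>
    algebraMap P E (MvPolynomial.map (algebraMap ℚ k) (WW u v M1 β))
  have hw0 : ∀ β, w β ≠ 0 := by
    intro β h
    have h1 := (map_eq_zero_iff _ hinjE).mp h
    have h2 := (map_eq_zero_iff _ hinjm).mp h1
    exact hW0 β h2
  obtain ⟨βs, hβs⟩ : ∃ βs, ∀ β, O.valuation (w β) ≤ O.valuation (w βs) :=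
    Finite.exists_max (fun β => O.valuation (w β))
  by_contra hcon
  push Not at hcon
  have hvs : 0 < O.valuation (w βs) := by
    rw [zero_lt_iff, Valuation.ne_zero_iff]
    exact hw0 βs
  have hlt : ∀ j, O.valuation (algebraMap P E (yy u v M1 η lam j)) < O.valuation (w βs) := by
    intro j
    obtain ⟨β, hβ⟩ := hcon j
    exact hβ.trans_le (hβs β)
  let Ω := IsLocalRing.ResidueField O
  let res : O →+* Ω := IsLocalRing.residue O
  let kO : k →+* O := (algebraMap k E).codRestrict O.toSubring hO
  let ι : k →+* Ω := res.comp kO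
  have hcΩ : CharZero Ω := charZero_of_injective_ringHom ι.injective
  have hwO : ∀ β, w β / w βs ∈ O := by
    intro β
    rw [← O.valuation_le_one_iff, map_div₀]
    exact (div_le_one₀ hvs).mpr (hβs β)
  let wO : Ix N τ M1 → O := fun β => ⟨w β / w βs, hwO β⟩
  let r : Ix N τ M1 → Ω := fun β => res (wO β)
  have hrs : r βs = 1 := by
    have : wO βs = 1 := Subtype.ext (div_self (hw0 βs))
    simp only [r]
    rw [this, map_one]
  refine count ι η lam hGen r βs hrs ?_ ?_
  · -- the ratios have transcendence degree at most `N`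
    intro g hg
    let a : Option (Fin (N + 1)) → Ix N τ M1 := fun o => Option.elim o βs g
    obtain ⟨d, F, hF0, hFh, hF⟩ := hom_rel (ι := Option (Fin (N + 1))) (σ := Fin (N + 1))
      (by simp) (fun o => WW u v M1 (a o)) (by positivity : 0 < 1 + ∑ t, m t * M1)
      (fun o => hWh (a o))
    apply dehom F hFh hF0
    apply (algebraicIndependent_iff.mp hg)
    let φE : ℚ →+* E := algebraMap ℚ E
    have h1 : eval₂ φE (fun o => w (a o)) F = 0 := by
      let Ψ : MvPolynomial (Fin (N + 1)) ℚ →+* E :=
        (algebraMap P E).comp (MvPolynomial.map (algebraMap ℚ k))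
      have h2 := congrArg Ψ hF
      rw [map_zero, aeval_def, hom_eval₂] at h2
      rw [← h2]
      congr 1
      exact Subsingleton.elim _ _
    have h2 : eval₂ φE (fun o => w (a o) * (w βs)⁻¹) F = 0 := by
      rw [eval₂_scale φE F hFh, h1, mul_zero]
    have h3 : eval₂ (algebraMap ℚ k |> kO.comp) (fun o => wO (a o)) F = 0 := by
      apply Subtype.ext
      have h4 := hom_eval₂ F (kO.comp (algebraMap ℚ k)) (O.subtype) (fun o => wO (a o))
      have h5 : (O.subtype).comp (kO.comp (algebraMap ℚ k)) = φE := Subsingleton.elim _ _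
      rw [h5] at h4
      have h6 : eval₂ φE (fun i => O.subtype (wO (a i))) F = 0 := h2
      rw [h6] at h4
      exact h4
    have h4 := congrArg res h3
    rw [map_zero, hom_eval₂] at h4
    rw [← h4]
    rw [← AlgHom.comp_apply, comp_aeval, aeval_def]
    congr 1
    · exact Subsingleton.elim _ _
    · funext o
      cases o with
      | none =>
        simp only [Option.elim, map_one]
        exact hrs.symm
      | some i =>
        simp only [Option.elim, aeval_X]
        rfl
  · -- the relations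
    intro j
    have h1 : algebraMap P E (yy u v M1 η lam j) / w βs ∈ O := by
      rw [← O.valuation_le_one_iff, map_div₀]
      exact (div_le_one₀ hvs).mpr (hlt j).le
    let z : O := ⟨_, h1⟩
    have h2 : res z = 0 := by
      rw [IsLocalRing.residue_eq_zero_iff, ValuationSubring.valuation_lt_one_iff]
      simp only [z]
      rw [map_div₀]
      exact (div_lt_one₀ hvs).mpr (hlt j)
    rw [← h2, finsum_eq_sum_of_fintype]
    have h3 : z = ∑ β : Ix N τ M1, kO (cf (η j) (lam j) β) * wO β := by
      apply Subtype.ext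
      rw [AddSubmonoidClass.coe_finsetSum]
      simp only [z]
      rw [yy_expand, map_sum, Finset.sum_div]
      refine Finset.sum_congr rfl fun β _ => ?_
      rw [map_mul, mul_div_assoc]
      rfl
    rw [h3, map_sum]
    refine Finset.sum_congr rfl fun β _ => ?_
    rw [map_mul]
    rfl

end Pool.Agent.Helper37.VD
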